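import Pool.Agent.K9h14.C4

set_option autoImplicit false

/-!
# Torsors over the algebraic numbers which contain the periods of a motive of ball type

Let `A` be an abelian variety over `ℚ̄` and let `M` be any André motive over `ℚ̄` in the tensor
category generated by `h^1(A)` and the Tate motives. Let `P` be the matrix of the periods of `M`, and
let `G ⊆ GL(H_B(M) ⊗ ℚ̄)` be **any algebraic group over `ℚ̄`** such that the comparison isomorphism of
`M` is a point of a torsor of `G` defined over `ℚ̄`: `P T ∈ G(ℂ)` for some matrix `T` with algebraic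
entries. The period conjecture says that the Zariski closure `Z_M` of `P` over `ℚ̄` is the torsor of the
motivic Galois group of `M`, which is the Mumford-Tate group `MT(M)` by theorems of Deligne and André.
In particular it predicts that every such `G` contains `MT(M)`. This prediction (no proper `ℚ̄`-torsor
inside the torsor of `MT(M)` contains `P`) is equivalent to: all de Rham-Betti classes *with
coefficients in `ℚ̄`* in the tensor constructions of `M` are linear combinations over `ℚ̄` of Hodge
classes. If `P T` is in `G`, and `G` is only defined over `ℚ̄`, then the conjugates of `G` over `ℚ` need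
not have this property; so this does not follow from the statement for the groups over `ℚ`.

Let `𝔤` be the Lie algebra of the endomorphisms of `H_1(A, ℚ)` which annihilate all classes that are
Hodge classes and de Rham-Betti classes; it is the Lie algebra of the Hodge group of `A`.

**Middle exterior parts** (`MiddlePart`). Let `W` be a direct summand of the `𝔤`-module `H_1(A, ℂ)`,
with the projector `P Q`. The summand `W` is a middle exterior part with `k` colours if it is
identified by `Q` with the space of the vectors with `m` particles of each of the `k` colours in a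
module over the algebra of the canonical anticommutation relations with `2 m` modes of each colour, if
`𝔤` acts on `W` through the sum of the `k` Lie algebras `sl(2m)` and the scalars, and if the
associative algebra generated by `𝔤 ⊗ ℂ` on `W` contains the number-preserving quadratic expressions
`a σ i * b σ j`. In other words `W` is a sum of copies of the tensor product of the `k` *middle exterior
powers* `⋀^m(ℂ^{2m})` of the standard representations of the `k` Lie algebras.

**The condition on `M`** (`AttachedTo`). The elements of `[𝔤, 𝔤] ⊗ ℂ` which act trivially on `W` act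
trivially on `M`. Nothing else is assumed about `M`.

**Theorem.** 1. `G` contains the derived group of `MT(M)`: for all elements `Z` of the derived algebra
of the Lie algebra of the Hodge group of `M`, and all complex numbers `t`, the matrix `exp (t Z)` is in
`G`. 2. If `A` has no factor of type IV, or if the centre of the Lie algebra of the Hodge group acts
trivially on `M`, then `G` contains `MT(M)`.

## Which motives are these? (Explanations, not part of the statement)

Let `M` be any motive of abelian type (in the tensor category of `h^1(A')`) whose Mumford-Tate domain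
is a disc (`m = 1`) or a complex ball of odd dimension `2m - 1`. Its adjoint Mumford-Tate group is
simple over `ℚ`, it is the restriction of scalars of a form of `PGL(2m)` over a totally real field with
`k` real places, and `su(1, 2m - 1)` is its real form at one of these places; the other real forms are
compact. By the classification of Satake and Deligne of the symplectic representations there is an
abelian variety `A''` over `ℚ̄` which has a middle exterior part with all `k` colours, and such that the
Hodge group of `A = A' × A''` has the same adjoint group as that of `A'`. So the theorem says that for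
**all** motives `M` of abelian type whose Mumford-Tate domain is a disc or a complex ball of odd
dimension every `G` over `ℚ̄` contains the derived group of `MT(M)`, and `MT(M)` if there are no factors
of type IV. Examples: the motives which are constructed from elliptic curves without complex
multiplication or from abelian varieties on Shimura curves over any totally real field (as in the
example of Mumford); from the Jacobians of `y ^ 3 = f(x)`, `f` general of degree five or six (`m = 2`),
or the primitive parts of those of `y ^ 6 = f(x)`, `f` general of degree twelve (`m = 5`, the family of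
Deligne and Mostow of dimension nine); motives of K3 type with multiplication by a CM field `E` of even
rank over `E`, and all their tensor powers and twists.

## What is used

`AbVar` is the description of an abelian variety over `ℚ̄` by theta functions (see
`Pool/Agent/Y102/AVDefs.lean`, where it is explained why every abelian variety has it); nothing is
assumed about periods. The groups over `ℚ` can be handled with the theorem of Schneider and Lang,
because the Lie algebra of such a group has rational elements, and rational elements of the Lie algebra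
which commute give morphisms of `ℚ`-de Rham-Betti structures. For groups over `ℚ̄` one needs the
`ℚ̄`-linear relations between the periods of all powers of `A`, for the forms of the second kind. So
the following theorem of transcendence is proved here, from scratch and without unproved hypotheses
(`Pool.Agent.K9h14.wuest`; it is the case of abelian varieties and of forms of the second kind of the
analytic subgroup theorem of Wüstholz, including the zero estimate for the extensions of abelian
varieties by vector groups): a relation `∑ (∫_{γ i} ω i) = 0` for `γ i` in `H_1(A, ℚ)` and `ω i` in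
`H^1_dR(A / ℚ̄)` comes from an abelian subvariety of `A ^ n`.

## Proof

1. (`Pool.Agent.K9h14.assoc_NA`) For a derivation `D` of `ℂ` over `ℚ̄` and a `ℚ̄`-linear form `λ` on `ℂ`
   let `Y (D, λ) = λ (D(P_A) P_A⁻¹)` be the component of the logarithmic derivative of the period matrix
   of `A`. The associative algebra which is generated by all `Y (D, λ)` is stable under the
   derivations, and by the theorem on the linear relations it contains `𝔤`.
2. (`Pool.Agent.K9h14.cfull`) The corresponding components of the logarithmic derivative of `P` are in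
   the Lie algebra of `G`, since `G` and the torsor are defined over `ℚ̄`. So the complex Lie algebra `𝔮`
   of the pairs (element of `𝔤 ⊗ ℂ`, action on `M`) whose second component is in the Lie algebra of `G`
   up to a multiple of the weights generates the same associative algebra on `H_1(A, ℂ)` as `𝔤 ⊗ ℂ`.
3. (`Pool.Agent.K9h14.main_dC`) The middle exterior part is rigid: a complex Lie subalgebra of the sum
   of the `k` Lie algebras `sl(2m)` which generates the same associative algebra on `W` is the whole
   sum. So `[𝔮, 𝔮]` and `[𝔤, 𝔤] ⊗ ℂ` have the same image on `W`, and hence on `M`.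
4. (`Pool.Agent.K9h14.hull_alg`, `Pool.Agent.K9h14.exp_hull`) The intersection of the conjugates of `G`
   under all automorphisms of `ℂ` is an algebraic group over `ℚ`, and it contains the exponentials of
   the combinations of the rational elements of the Lie algebra of `G`; so it contains the image of the
   Deligne torus.
-/

open Module Matrix Pool.Agent.Y102 Pool.Agent.W516.DR Pool.Agent.H204R3.GP

noncomputable section

namespace Pool.Agent.Results.MP_77d3f5_ag.QbarBall

variable {g : ℕ} (A : AbVar g)

/-! ### The Lie algebra -/

/-- The multilinear forms in `2m` variables in the rational homology. -/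
abbrev Form (m : ℕ) : Type := MultilinearMap ℚ (fun _ : Fin m × Fin 2 => A.H1) ℚ

/-- `φ` is a de Rham-Betti class in `H^1(A) ^ {⊗ 2m} (m)`. -/
def IsDRB {m : ℕ} (φ : Form A m) : Prop :=
  IsDeRhamBettiForm QBar A.dR (2 * Real.pi * Complex.I) m φ

/-- `φ` is a Hodge class in `H^1(A) ^ {⊗ 2m} (m)`. -/
def IsHodge {m : ℕ} (φ : Form A m) : Prop := IsHodgeTensor (A.per : A.H1 →+ (Fin g → ℂ)) φ

/-- The endomorphism `X` annihilates the form `φ` (as a derivation). -/
def Annihilates {m : ℕ} (X : Module.End ℚ A.H1) (φ : Form A m) : Prop :=
  ∀ v, ∑ k, φ (Function.update v k (X (v k))) = 0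

/-- `X` is in the Lie algebra `𝔤`: it annihilates all classes that are Hodge classes and
de Rham-Betti classes. -/
def InLie (X : Module.End ℚ A.H1) : Prop :=
  ∀ (m : ℕ) (φ : Form A m), IsHodge A φ → IsDRB A φ → Annihilates A X φ

/-- The algebra of the endomorphisms of `H_1(A, ℂ)`, as matrices for the basis of the lattice. -/
abbrev EndC (_ : AbVar g) : Type := Matrix (Fin (2 * g)) (Fin (2 * g)) ℂ

/-- The matrix of the extension of an endomorphism of `H_1(A, ℚ)` to `H_1(A, ℂ)`. -/
def toC (X : Module.End ℚ A.H1) : EndC A := Matrix.of fun i j => (X (Pi.single j 1) i : ℂ)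

/-- The complex Lie algebra `𝔤 ⊗ ℂ`, acting on `H_1(A, ℂ)`. -/
def lieC : Submodule ℂ (EndC A) := Submodule.span ℂ {Y | ∃ X, InLie A X ∧ Y = toC A X}

/-! ### The middle exterior type -/

section Mid

variable {N k n : ℕ}

/-- The canonical anticommutation relations for the creation operators `a σ i` and the annihilation
operators `b σ i`, where `σ` is the colour. -/
def Car (a b : Fin k → Fin n → Matrix (Fin N) (Fin N) ℂ) : Prop :=
  (∀ σ i τ j, a σ i * a τ j = -(a τ j * a σ i)) ∧
  (∀ σ i τ j, b σ i * b τ j = -(b τ j * b σ i)) ∧
  ∀ σ i τ j, a σ i * b τ j + b τ j * a σ i = if σ = τ ∧ i = j then 1 else 0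

/-- The action of the matrix `x` on the exterior algebra of the colour `σ`, in terms of creation and
annihilation operators. -/
def quant (a b : Fin k → Fin n → Matrix (Fin N) (Fin N) ℂ) (σ : Fin k)
    (x : Matrix (Fin n) (Fin n) ℂ) : Matrix (Fin N) (Fin N) ℂ :=
  ∑ i, ∑ j, x i j • (a σ i * b σ j)

end Mid

/-- **A middle exterior part** of `H_1(A, ℂ)`, with `k` colours: the projector `P * Q` commutes with
`𝔤`; the map `Q` identifies its image `W` with the space of the vectors with `m` particles of each
colour (the number operator of the colour `σ` is `quant a b σ 1`), for some operators `a`, `b` which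
satisfy the canonical anticommutation relations with `2 m` modes of each colour, and `P` is the inverse
of `Q` on this space. The Lie algebra `𝔤` acts on `W` by elements of the sum of the `k` Lie algebras
`sl(2m)` and scalars, and the associative algebra generated by `𝔤 ⊗ ℂ` contains elements which act on
`W` like `a σ i * b σ j`. -/
structure MiddlePart {N k m : ℕ} (a b : Fin k → Fin (2 * m) → Matrix (Fin N) (Fin N) ℂ)
    (P : Matrix (Fin (2 * g)) (Fin N) ℂ) (Q : Matrix (Fin N) (Fin (2 * g)) ℂ) : Prop where
  /-- the canonical anticommutation relations -/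
  car : Car a b
  /-- `P * Q` and `Q * P` are projectors -/
  left : P * Q * P = P
  right : Q * P * Q = Q
  /-- the image of `Q` is the space of the vectors with `m` particles of each colour -/
  middle : ∀ v, (∃ u, v = Q.mulVec u) ↔ ∀ σ, (quant a b σ 1).mulVec v = (m : ℂ) • v
  /-- the image of `P * Q` and its complement are stable under `𝔤` -/
  stable : ∀ X, InLie A X → P * Q * toC A X = toC A X * (P * Q)
  /-- `𝔤` acts through the sum of the Lie algebras `sl(2m)` and the scalars -/
  acts : ∀ X, InLie A X → ∃ c : ℂ, P * Q * toC A X + c • (P * Q) ∈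
    Submodule.span ℂ {Y | ∃ σ x, Matrix.trace x = 0 ∧ Y = P * quant a b σ x * Q}
  /-- the associative algebra generated by `𝔤 ⊗ ℂ` -/
  generates : ∀ σ i j, ∃ Y ∈ Algebra.adjoin ℂ (lieC A : Set (EndC A)),
    P * (a σ i * b σ j) * Q = P * Q * Y

/-! ### Motives -/

variable {s n : ℕ} (r : Fin s → ℕ) (w : Fin s → ℤ)

/-- The Betti realization of the sum of the motives `h^1(A) ^ {⊗ r i} (w i)`: families of multilinear
forms in `r i` variables in the rational homology. -/
abbrev Tensors : Type := ∀ i : Fin s, MultilinearMap ℚ (fun _ : Fin (r i) => A.H1) ℚ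

variable {A r}

/-- `M` is the matrix of the action of the endomorphism `X` of the rational homology of `A` (as a
derivation) on the space of tensors with the basis `B`. -/
def IsLieMatrix (B : Fin n → Tensors A r) (X : Module.End ℚ A.H1)
    (M : Matrix (Fin n) (Fin n) ℚ) : Prop :=
  ∀ a i v, ∑ k, B a i (Function.update v k (X (v k))) = ∑ b, M b a * B b i v

/-- The subspace with the basis `B` is the Betti realization of a direct factor `M` of the sum of the
motives `h^1(A) ^ {⊗ r i} (w i)`, and `P` is the matrix of the periods of `M` for the basis `B` and for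
some basis of the de Rham realization of `M` over `ℚ̄`. -/
structure IsMotive (B : Fin n → Tensors A r) (P : Matrix (Fin n) (Fin n) ℂ) : Prop where
  /-- `B` is a basis of a subspace -/
  basis : LinearIndependent ℚ B
  /-- the subspace is stable under `𝔤` -/
  lie : ∀ X, InLie A X → ∃ M : Matrix (Fin n) (Fin n) ℚ, IsLieMatrix B X M
  /-- the subspace is stable under the weights -/
  weight : ∃ M : Matrix (Fin n) (Fin n) ℚ, ∀ a i v,
    ((r i : ℚ) - 2 * w i) * B a i v = ∑ b, M b a * B b i v
  /-- the de Rham realization has a basis of elements with algebraic coefficients in terms of the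
  tensor products of the elements of the basis of `H^1_dR(A / ℚ̄)` -/
  deRham : ∃ c : Fin n → ∀ i : Fin s, (Fin (r i) → Fin g ⊕ Fin g) → ℂ,
    (∀ a i J, IsAlgebraic ℚ (c a i J)) ∧ ∀ a i (v : Fin (r i) → A.H1),
      ∑ J, c a i J * ∏ k, A.dR (J k) (v k) =
        (2 * Real.pi * Complex.I) ^ (w i) * ∑ b, P b a * (B b i v : ℂ)
  /-- the matrix of the periods is invertible -/
  det : P.det ≠ 0

/-! ### The Mumford-Tate domain -/

/-- `N` is the matrix of the action on `M` of the multiplication with `i` on `H_1(A, ℝ) = ℂ ^ g` (as a
derivation): the generator of the Lie algebra of the circle in the Hodge structure of `M`. -/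
def IsComplexStructure (B : Fin n → Tensors A r) (N : Matrix (Fin n) (Fin n) ℝ) : Prop :=
  ∀ a i (j : Fin (r i) → Fin (2 * g)),
    ∑ k, ∑ l : Fin (2 * g), A.lam.repr (Complex.I • A.lam (j k)) l *
        (B a i (Function.update (fun p => Pi.single (j p) 1) k (Pi.single l 1)) : ℝ) =
      ∑ b, N b a * (B b i (fun p => Pi.single (j p) 1) : ℝ)

variable (A) in
/-- The derived algebra `[𝔤, 𝔤]`. -/
def derivedLie : Submodule ℚ (Module.End ℚ A.H1) :=
  Submodule.span ℚ {Z | ∃ X, InLie A X ∧ ∃ Y, InLie A Y ∧ Z = X * Y - Y * X}

/-- The motive `M` is attached to the image of the projector `E`: an element of `[𝔤, 𝔤] ⊗ ℂ`, which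
acts on `H_1(A, ℂ)` by `p.1` and on `M` by `p.2`, acts trivially on `M` if it acts trivially on the
image of `E`. -/
def AttachedTo (E : EndC A) (B : Fin n → Tensors A r) : Prop :=
  ∀ p ∈ Submodule.span ℂ {p : EndC A × Matrix (Fin n) (Fin n) ℂ | ∃ X ∈ derivedLie A,
      ∃ M : Matrix (Fin n) (Fin n) ℚ, IsLieMatrix B X M ∧
        p = (toC A X, M.map fun q => (q : ℂ))},
    E * p.1 = 0 → p.2 = 0

/-- The Lie algebra of the Hodge group of `M`: the smallest rational Lie algebra whose real span
contains the complex structure `N`. -/
def hodgeLie (N : Matrix (Fin n) (Fin n) ℝ) : Submodule ℚ (Matrix (Fin n) (Fin n) ℚ) :=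
  sInf {L | (∀ x ∈ L, ∀ y ∈ L, x * y - y * x ∈ L) ∧
    N ∈ Submodule.span ℝ {M | ∃ x ∈ L, M = x.map fun q => (q : ℝ)}}

/-- The derived algebra. -/
def derived (L : Submodule ℚ (Matrix (Fin n) (Fin n) ℚ)) :
    Submodule ℚ (Matrix (Fin n) (Fin n) ℚ) :=
  Submodule.span ℚ {z | ∃ x ∈ L, ∃ y ∈ L, z = x * y - y * x}

/-- The centre of the Lie algebra acts trivially: an element of `𝔤` which acts on `M` like a central
element acts trivially. -/
def CentreActsTrivially (B : Fin n → Tensors A r) : Prop :=
  ∀ X, InLie A X → (∀ Y, InLie A Y → IsLieMatrix B (X * Y - Y * X) 0) → IsLieMatrix B X 0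

/-! ### Algebraic groups, torsors and the Mumford-Tate group -/

/-- A subgroup of `GL_R(ℂ)` defined by polynomials with rational coefficients. -/
def IsAlgebraicSubgroup {R : Type} [Fintype R] [DecidableEq R] (G : Subgroup (GL R ℂ)) : Prop :=
  ∃ I : Set (MvPolynomial (R × R) ℚ), ∀ x : GL R ℂ, x ∈ G ↔
    ∀ p ∈ I, MvPolynomial.aeval (fun b : R × R => (x : Matrix R R ℂ) b.1 b.2) p = 0

/-- A subgroup of `GL_R(ℂ)` defined by polynomials whose coefficients are algebraic numbers. -/
def IsAlgebraicSubgroupQbar {R : Type} [Fintype R] [DecidableEq R] (G : Subgroup (GL R ℂ)) :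
    Prop :=
  ∃ I : Set (MvPolynomial (R × R) ℂ), (∀ p ∈ I, ∀ m, IsAlgebraic ℚ (p.coeff m)) ∧
    ∀ x : GL R ℂ, x ∈ G ↔
      ∀ p ∈ I, MvPolynomial.eval (fun b : R × R => (x : Matrix R R ℂ) b.1 b.2) p = 0

/-- The torsor `G · T⁻¹` of `G`: the matrices `F` such that `F T` is an element of `G`. It is
defined over `ℚ̄` if `T` is a matrix with algebraic entries. -/
def torsor (G : Subgroup (GL (Fin n) ℂ)) (T : Matrix (Fin n) (Fin n) ℂ) :
    Set (Matrix (Fin n) (Fin n) ℂ) :=
  {F | ∃ x ∈ G, (x : Matrix (Fin n) (Fin n) ℂ) = F * T}

variable (A) in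
/-- The Hodge structure of `H^1(A)`: the complex number `z` acts on `H_1(A, ℝ) = ℂ ^ g` by
multiplication, and on `H^1(A, ℝ)` by the transposed map, here in the basis of `H^1(A, ℚ)` which is
dual to the basis of the lattice. -/
def hodge (z : ℂ) : Matrix (Fin (2 * g)) (Fin (2 * g)) ℂ :=
  Matrix.of fun i j => ((A.lam.repr (z • A.lam i) j : ℝ) : ℂ)

/-- `R` is the matrix of the action of the complex number `z` on `M`, in the Hodge structure given by
those of `H^1(A)` and of the Tate motives (`z` acts on `ℚ(1)` by `(z z̄)⁻¹`). -/
def IsHodgeMatrix (B : Fin n → Tensors A r) (z : ℂ) (R : Matrix (Fin n) (Fin n) ℂ) : Prop :=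
  ∀ a i (j : Fin (r i) → Fin (2 * g)),
    ∑ j' : Fin (r i) → Fin (2 * g), (∏ k, hodge A z (j k) (j' k)) *
        (B a i (fun k => Pi.single (j' k) 1) : ℂ) =
      (z * (starRingEnd ℂ) z) ^ (w i) * ∑ b, R b a * (B b i (fun k => Pi.single (j k) 1) : ℂ)

/-- The Mumford-Tate group of `M`: the smallest algebraic group over `ℚ` which contains the image of
the Deligne torus. -/
def mumfordTate (B : Fin n → Tensors A r) : Subgroup (GL (Fin n) ℂ) :=
  sInf {G | IsAlgebraicSubgroup G ∧ ∀ z : ℂ, z ≠ 0 → ∃ x ∈ G,
    IsHodgeMatrix w B z (x : Matrix (Fin n) (Fin n) ℂ)}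

variable (A) in
/-- There is no factor of type IV: the Rosati involution is trivial on the centre of the algebra of
the endomorphisms, that is, the centre contains no nonzero element which is skew-symmetric for the
polarization `A.om`. (The endomorphisms of the de Rham-Betti object `H_1(A)` are the endomorphisms of
`A` by the theorem of Bost, which is proved in `Pool.Agent.Y102.AbVar.hodge_end`.) -/
def NoFactorOfTypeIV : Prop :=
  ∀ P : Module.End ℚ A.H1, IsDeRhamBettiEnd QBar A.dR P →
    (∀ Q : Module.End ℚ A.H1, IsDeRhamBettiEnd QBar A.dR Q → P * Q = Q * P) →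
    (∀ u v, A.om (P u) v + A.om u (P v) = 0) → P = 0

/-- **Theorem.** Let `a`, `b`, `PW`, `QW` be a middle exterior part `W` of `H_1(A, ℂ)`. Let `M` be a
motive in the tensor category generated by `h^1(A)` and the Tate motives, with the matrix `P` of
periods and the complex structure `N`, such that the elements of `[𝔤, 𝔤] ⊗ ℂ` which act trivially on
`W` act trivially on `M`. Let `G` be an algebraic group over `ℚ̄` with a torsor over `ℚ̄` which
contains `P`.

1. For all elements `Z` of the derived algebra of the Lie algebra of the Hodge group of `M` and all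
   complex numbers `t` the matrix `exp (t Z)` is in `G`.
2. If `A` has no factor of type IV, or if the centre acts trivially on `M`, then the Mumford-Tate group
   of `M` is contained in `G`. -/
theorem result {g s n k m NW : ℕ} (A : AbVar g)
    (a b : Fin k → Fin (2 * m) → Matrix (Fin NW) (Fin NW) ℂ)
    (PW : Matrix (Fin (2 * g)) (Fin NW) ℂ) (QW : Matrix (Fin NW) (Fin (2 * g)) ℂ)
    (hA : MiddlePart A a b PW QW) (r : Fin s → ℕ) (w : Fin s → ℤ)
    (B : Fin n → Tensors A r) (P : Matrix (Fin n) (Fin n) ℂ) (hM : IsMotive w B P)
    (N : Matrix (Fin n) (Fin n) ℝ) (hN : IsComplexStructure B N) (hD : AttachedTo (PW * QW) B)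
    (G : Subgroup (GL (Fin n) ℂ)) (hG : IsAlgebraicSubgroupQbar G) (T : Matrix (Fin n) (Fin n) ℂ)
    (hT : ∀ i j, IsAlgebraic ℚ (T i j)) (hP : P ∈ torsor G T) :
    (∀ Z ∈ derived (hodgeLie N), ∀ t : ℂ, ∃ x ∈ G,
      (x : Matrix (Fin n) (Fin n) ℂ) = NormedSpace.exp (t • Z.map fun q => (q : ℂ))) ∧
    (NoFactorOfTypeIV A ∨ CentreActsTrivially B → mumfordTate w B ≤ G) := by
  have hrig := N113.BT.rigPart_of (A := A) hA.car.1 hA.car.2.1 hA.car.2.2 hA.left hA.right
    hA.middle hA.stable hA.acts hA.generates
  obtain ⟨hM', Wt, hW⟩ : N208.AM.Mot w B P ∧ ∃ Wt, N208.AM.WRel w B Wt := by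
    have hwt : ∃ M, N208.AM.WRel w B M := by
      obtain ⟨M, h⟩ := hM.weight
      refine ⟨M, fun a i => MultilinearMap.ext fun v => ?_⟩
      rw [_root_.smul_apply, _root_.sum_apply, smul_eq_mul, h a i v]
      rfl
    refine ⟨⟨hM.basis, fun X hX => ?_, hwt, hM.det, hM.deRham⟩, hwt⟩
    obtain ⟨M, h⟩ := hM.lie X hX
    refine ⟨M, fun a i => MultilinearMap.ext fun v => ?_⟩
    rw [N208.AM.dact_apply, _root_.sum_apply, h a i v]
    rfl
  have hrelL : ∀ X M, N208.AM.Rel B X M ↔ IsLieMatrix B X M := by
    intro X M
    constructor
    · intro h a i v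
      have h1 := congrArg (fun φ : MultilinearMap ℚ (fun _ : Fin (r i) => A.H1) ℚ => φ v) (h a i)
      simp only [N208.AM.dact_apply, _root_.sum_apply, _root_.smul_apply, smul_eq_mul] at h1
      exact h1
    · intro h a i
      refine MultilinearMap.ext fun v => ?_
      rw [N208.AM.dact_apply, _root_.sum_apply, h a i v]
      rfl
  have hb : ∀ j : Fin (2 * g), A.bas j = Pi.single j 1 := fun j => by
    unfold AbVar.bas
    rw [Pi.basisFun_apply]
  have hrel : ∀ z R, N208.AM.HRel w B z R → IsHodgeMatrix w B z R := by
    intro z R h a i j
    have h1 := h a i j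
    simp only [hb] at h1
    exact h1
  have hA' : NoFactorOfTypeIV A → N208.AM.NT4 A := fun hA P hP hc hs =>
    hA P (A.mem_EA.1 hP) (fun Q hQ => hc Q (A.mem_EA.2 hQ)) hs
  have hNC : CentreActsTrivially B → N208.AM.NoCentre B := fun hc X hX h =>
    (hrelL X 0).2 (hc X hX fun Y hY => (hrelL _ 0).1 (h Y hY))
  -- the complex structure
  have hNR : N208.AM.RelR B AbVar.JJ N := by
    intro a i
    refine Basis.ext_multilinear (fun _ => A.lam) fun j => ?_
    have h1 := hN a i j
    rw [N208.AM.dact_apply, _root_.sum_apply]
    have h2 : (fun p => A.lam (j p)) = fun p => A.per (Pi.single (j p) 1) := by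
      funext p
      rw [← hb, A.per_bas]
    have h3 : ∀ b, (N b a • A.Phi (B b i)) (fun p => A.lam (j p)) =
        N b a * (B b i (fun p => Pi.single (j p) 1) : ℝ) := fun b => by
      rw [_root_.smul_apply, smul_eq_mul, h2, A.Phi_per]
    rw [Finset.sum_congr rfl fun b _ => h3 b, ← h1]
    refine Finset.sum_congr rfl fun k _ => ?_
    rw [AbVar.JJ_apply, ← A.lam.sum_repr (Complex.I • A.lam (j k)), MultilinearMap.map_update_sum]
    simp only [A.lam.sum_repr]
    refine Finset.sum_congr rfl fun l _ => ?_
    rw [MultilinearMap.map_update_smul, smul_eq_mul]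
    congr 1
    have h4 : A.lam l = A.per (Pi.single l 1) := by rw [← hb, A.per_bas]
    rw [h2, h4, N208.AM.update_per, A.Phi_per]
  -- the kernel condition
  have hα := K9h14.alpha_of' (B := B) (E := PW * QW) (T := Pool.Agent.Y102.der A.NA)
    fun p hp h0 => by
      refine hD p ?_ h0
      refine (Submodule.span_mono ?_) hp
      rintro _ ⟨X, hX, M, hM, rfl⟩
      refine ⟨X, ?_, M, (hrelL _ _).1 hM, rfl⟩
      refine (Submodule.span_mono ?_) hX
      rintro _ ⟨X, hX, Y, hY, rfl⟩
      exact ⟨X, hX, Y, hY, rfl⟩
  -- the group
  obtain ⟨hG1, hG2⟩ := K9h14.of_eqs hG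
  have hdet : T.det ≠ 0 := by
    obtain ⟨x, -, hxT⟩ := hP
    intro h0
    have h1 : (x : Matrix (Fin n) (Fin n) ℂ).det = 0 := by
      rw [hxT, Matrix.det_mul, h0, mul_zero]
    exact (Matrix.GeneralLinearGroup.det x).ne_zero h1
  obtain ⟨T', h1, h2⟩ := Pool.Agent.R917.alg_inv hT hdet
  obtain ⟨x, hx, hxT⟩ := hP
  have hH : K9h14.PtQ P (K9h14.mats G) := ⟨hG1, T, T', h1, h2, x, hx, hxT⟩
  have hd : K9h14.DerIn B (K9h14.mats G) := fun X hX M hM =>
    K9h14.main_dC hM' hW hH hrig hα hX hM
  refine ⟨fun Z hZ t => ?_, fun hA => ?_⟩
  · obtain ⟨L, hL1, hL2, hL3⟩ := hd.lie hM' hNR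
    have h3 : hodgeLie N ≤ L := sInf_le ⟨hL1, hL2⟩
    have h4 : derived (hodgeLie N) ≤ N208.AM.LQ (K9h14.mats G) := by
      unfold derived
      rw [Submodule.span_le]
      rintro _ ⟨x, hx, y, hy, rfl⟩
      exact hL3 x (h3 hx) y (h3 hy)
    exact Pool.Agent.R917.exp_mem hH.grp fun d => (h4 hZ d).smul t
  · have hc : N208.AM.NoCentre B := hA.elim
      (fun h => N208.AM.noCentre_of_NT4 hM' (hA' h)) hNC
    refine le_trans (sInf_le ⟨K9h14.hull_alg hG2, fun z hz => ?_⟩) (K9h14.hull_le G)
    obtain ⟨x, hx, h4⟩ := hd.torus hG2 hM' hW hH hc hNR hz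
    exact ⟨x, hx, hrel _ _ h4⟩

end Pool.Agent.Results.MP_77d3f5_ag.QbarBall
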