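import Pool.Agent.K9h14.D7

set_option autoImplicit false

/-!
# Torsors over the algebraic numbers which contain the periods of a motive with a polydisc as domain

Let `A` be an abelian variety over `ℚ̄` and let `M` be any André motive over `ℚ̄` in the tensor
category generated by `h^1(A)` and the Tate motives. Let `P` be the matrix of the periods of `M`, and
let `G ⊆ GL(H_B(M) ⊗ ℚ̄)` be **any algebraic group over `ℚ̄`** such that the comparison isomorphism of
`M` is a point of a torsor of `G` defined over `ℚ̄`: `P T ∈ G(ℂ)` for some matrix `T` with algebraic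
entries. The period conjecture says that the Zariski closure `Z_M` of `P` over `ℚ̄` is the torsor of the
motivic Galois group of `M`, which is the Mumford-Tate group `MT(M)` by theorems of Deligne and André.
In particular it predicts that every such `G` contains `MT(M)`. This prediction (no proper `ℚ̄`-torsor
inside the torsor of `MT(M)` contains `P`) is equivalent to: all de Rham-Betti classes *with
coefficients in `ℚ̄`* in the tensor constructions of `M` are linear combinations over `ℚ̄` of Hodge
classes. If `P T` is in `G`, and `G` is only defined over `ℚ̄`, then the conjugates of `G` over `ℚ` need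
not have this property; so this does not follow from the statement for the groups over `ℚ`.

Let `𝔤` be the Lie algebra of the endomorphisms of `H_1(A, ℚ)` which annihilate all classes that are
Hodge classes and de Rham-Betti classes; it is the Lie algebra of the Hodge group of `A`.

**Pauli parts** (`PauliPart`). Let `W` be a direct summand of the `𝔤`-module `H_1(A, ℂ)`, with the
inclusion `P` and the projection `Q` (`Q P = 1`). The summand `W` is a Pauli part with `k` colours if
`𝔤` acts on `W` through scalars and the sum of `k` commuting Lie algebras `sl(2)`, each of which acts by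
copies of the trivial and of the standard representation, and if the associative algebra generated by
`𝔤 ⊗ ℂ` on `W` contains these Lie algebras. So `W` is a sum of constituents (with multiplicities)
`W_S = ⨂_{σ ∈ S} ℂ²_σ` for some sets `S` of colours. We assume that the colours are *separated*: for two
different colours `σ`, `τ` there is a constituent `W_S` with `σ` and `τ` in `S`, or there are two
constituents `W_{S ∪ σ}`, `W_{S ∪ τ}` with `σ`, `τ` not in `S`. For example: only one constituent, with
`S` the set of all colours; or the constituents `ℂ²_σ`, for all colours `σ`.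

**The condition on `M`** (`AttachedTo`). The elements of `[𝔤, 𝔤] ⊗ ℂ` which act trivially on `W` act
trivially on `M`. Nothing else is assumed about `M`.

**Theorem.** 1. `G` contains the derived group of `MT(M)`: for all elements `Z` of the derived algebra
of the Lie algebra of the Hodge group of `M`, and all complex numbers `t`, the matrix `exp (t Z)` is in
`G`. 2. If `A` has no factor of type IV, or if the centre of the Lie algebra of the Hodge group acts
trivially on `M`, then `G` contains `MT(M)`.

## Which motives are these? (Explanations, not part of the statement)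

The Mumford-Tate domain of `M` is a product of discs. Examples:

* `A` is any product of simple abelian varieties over `ℚ̄` which are elliptic curves without complex
  multiplication, or have real multiplication by a totally real field of degree `dim` over `ℚ`
  (Hilbert-Blumenthal), or multiplication by a totally indefinite quaternion algebra of dimension
  `2 dim` over `ℚ`, and are not of CM type (for example all simple abelian surfaces whose endomorphism
  algebra is neither `ℚ` nor of CM type): here the constituents of `H_1(A, ℂ)` are the standard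
  representations `ℂ²_σ` of the different simple factors `sl(2)` of `𝔤 ⊗ ℂ` (`W = H_1(A, ℂ)`), and `M` is
  arbitrary. So all de Rham-Betti classes with coefficients in `ℚ̄` on all powers of all these products
  are combinations of Hodge classes (and these are algebraic: they are polynomials in divisor
  classes). One can add an arbitrary factor of CM type to `A` in 1.
* more generally all motives `M` of abelian type such that the adjoint group of `MT(M)` is a product of
  groups `Res_{F/ℚ} PGL_1(B)` with totally indefinite quaternion algebras `B` over totally real fields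
  `F`, or one such group with a quaternion algebra which is indefinite at exactly one real place (Shimura
  curves, the fourfolds of Mumford: one constituent with all colours);
* motives of K3 type with real multiplication by a totally real field `F`, of rank four over `F` (the
  domain is a product of two discs): the Kuga-Satake variety has the constituents `W_S`, where `S`
  contains one of the two simple factors of `so(4, ℂ)` for each real place of `F`, and the colours are
  separated. In particular all K3 surfaces with Picard number `18` whose transcendental lattice has no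
  complex multiplication.

Not every Pauli system is separated: for `W = ℂ²_1 ⊗ ℂ²_3 + ℂ²_2 ⊗ ℂ²_4` the subalgebra
`{(x, x, y, z)}` generates the same associative algebra. Known over `ℚ̄` (Kreutz, Shen, Vial): products of
elliptic curves.

## What is used

`AbVar` is the description of an abelian variety over `ℚ̄` by theta functions (see
`Pool/Agent/Y102/AVDefs.lean`, where it is explained why every abelian variety has it); nothing is
assumed about periods. For groups over `ℚ̄` one needs the `ℚ̄`-linear relations between the periods of
all powers of `A`, for the forms of the second kind: the case of abelian varieties and forms of the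
second kind of the analytic subgroup theorem of Wüstholz. It is proved in Lean from scratch and without
unproved hypotheses (`Pool.Agent.K9h14.wuest`, for `QbarBall` in this folder).

## Proof

1. (`Pool.Agent.K9h14.assoc_NA`) For a derivation `D` of `ℂ` over `ℚ̄` and a `ℚ̄`-linear form `λ` on `ℂ`
   let `Y (D, λ) = λ (D(P_A) P_A⁻¹)` be the component of the logarithmic derivative of the period matrix
   of `A`. The associative algebra which is generated by all `Y (D, λ)` is stable under the
   derivations, and by the theorem on the linear relations it contains `𝔤`.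
2. (`Pool.Agent.K9h14.cfull`) The corresponding components of the logarithmic derivative of `P` are in
   the Lie algebra of `G`, since `G` and the torsor are defined over `ℚ̄`. So the complex Lie algebra `𝔮`
   of the pairs (element of `𝔤 ⊗ ℂ`, action on `M`) whose second component is in the Lie algebra of `G`
   up to a multiple of the weights generates the same associative algebra on `H_1(A, ℂ)` as `𝔤 ⊗ ℂ`.
3. (`Pool.Agent.K9h14.PA.pau_rigid`) The Pauli parts are rigid: a complex Lie subalgebra `𝔥` of the sum
   of the Lie algebras `sl(2)` which generates the same associative algebra on `W` is the whole sum.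
   If the projection to one colour is not everything, then there is `u ≠ 0` with `[𝔥, u] ⊆ ℂ u`,
   which contradicts the relations. If the projection to two colours `σ`, `τ` is the graph of an
   isomorphism `θ`, then `∑ θ(x_a) x_a` commutes with `𝔥`, which is impossible if there is a
   constituent with both colours; and if there are constituents `W_{S ∪ σ}` and `W_{S ∪ τ}`, then one
   obtains an intertwining operator for `𝔥` between them, as an average over the groups generated by
   the Pauli matrices, which contradicts that the projectors to the constituents are in the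
   associative algebra. So `[𝔮, 𝔮]` and `[𝔤, 𝔤] ⊗ ℂ` have the same image on `W`, and hence on `M`.
4. (`Pool.Agent.K9h14.hull_alg`, `Pool.Agent.K9h14.exp_hull`) The intersection of the conjugates of `G`
   under all automorphisms of `ℂ` is an algebraic group over `ℚ`, and it contains the exponentials of
   the combinations of the rational elements of the Lie algebra of `G`; so it contains the image of the
   Deligne torus.
-/

open Module Matrix Pool.Agent.Y102 Pool.Agent.W516.DR Pool.Agent.H204R3.GP

noncomputable section

namespace Pool.Agent.Results.MP_77d3f5_ag.QbarHilbert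

variable {g : ℕ} (A : AbVar g)

/-! ### The Lie algebra -/

/-- The multilinear forms in `2m` variables in the rational homology. -/
abbrev Form (m : ℕ) : Type := MultilinearMap ℚ (fun _ : Fin m × Fin 2 => A.H1) ℚ

/-- `φ` is a de Rham-Betti class in `H^1(A) ^ {⊗ 2m} (m)`. -/
def IsDRB {m : ℕ} (φ : Form A m) : Prop :=
  IsDeRhamBettiForm QBar A.dR (2 * Real.pi * Complex.I) m φ

/-- `φ` is a Hodge class in `H^1(A) ^ {⊗ 2m} (m)`. -/
def IsHodge {m : ℕ} (φ : Form A m) : Prop := IsHodgeTensor (A.per : A.H1 →+ (Fin g → ℂ)) φ

/-- The endomorphism `X` annihilates the form `φ` (as a derivation). -/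
def Annihilates {m : ℕ} (X : Module.End ℚ A.H1) (φ : Form A m) : Prop :=
  ∀ v, ∑ k, φ (Function.update v k (X (v k))) = 0

/-- `X` is in the Lie algebra `𝔤`: it annihilates all classes that are Hodge classes and
de Rham-Betti classes. -/
def InLie (X : Module.End ℚ A.H1) : Prop :=
  ∀ (m : ℕ) (φ : Form A m), IsHodge A φ → IsDRB A φ → Annihilates A X φ

/-- The algebra of the endomorphisms of `H_1(A, ℂ)`, as matrices for the basis of the lattice. -/
abbrev EndC (_ : AbVar g) : Type := Matrix (Fin (2 * g)) (Fin (2 * g)) ℂ

/-- The matrix of the extension of an endomorphism of `H_1(A, ℚ)` to `H_1(A, ℂ)`. -/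
def toC (X : Module.End ℚ A.H1) : EndC A := Matrix.of fun i j => (X (Pi.single j 1) i : ℂ)

/-- The complex Lie algebra `𝔤 ⊗ ℂ`, acting on `H_1(A, ℂ)`. -/
def lieC : Submodule ℂ (EndC A) := Submodule.span ℂ {Y | ∃ X, InLie A X ∧ Y = toC A X}

/-! ### Systems of Pauli matrices -/

/-- The set of the colours `σ` which act nontrivially (as on a sum of copies of the standard
representation) on some vector `v ≠ 0` of `W` can be `S`: on `v` the projector `X σ 0 * X σ 0` is the
identity for the colours in `S`, and zero for the others. -/
def HasBlock {k d : ℕ} (X : Fin k → Fin 3 → Matrix (Fin d) (Fin d) ℂ) (S : Finset (Fin k)) : Prop :=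
  ∃ v : Fin d → ℂ, v ≠ 0 ∧ ∀ σ, (X σ 0 * X σ 0).mulVec v = if σ ∈ S then v else 0

/-- **A Pauli part** `W` of `H_1(A, ℂ)`, with `k` colours: `P` is the inclusion of `W`, a space of
dimension `d`, and `Q` is a projection to `W`; the projector `P * Q` commutes with `𝔤`. For each colour
`σ` the endomorphisms `X σ 0`, `X σ 1`, `X σ 2` of `W` satisfy the relations of the Pauli matrices on
the image of the projector `X σ 0 * X σ 0` and are zero on its kernel: so they span a Lie algebra
`sl(2)` which acts on `W` by a sum of copies of the trivial and of the standard representation. The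
Lie algebra `𝔤` acts on `W` (by `Q * toC A Z * P`) by combinations of the `X σ a` and scalars, and the
associative algebra generated by `𝔤 ⊗ ℂ` contains elements which act on `W` like the `X σ a`. -/
structure PauliPart {k d : ℕ} (X : Fin k → Fin 3 → Matrix (Fin d) (Fin d) ℂ)
    (P : Matrix (Fin (2 * g)) (Fin d) ℂ) (Q : Matrix (Fin d) (Fin (2 * g)) ℂ) : Prop where
  /-- the relations of the Pauli matrices -/
  mul : ∀ σ a, X σ a * X σ (a + 1) = Complex.I • X σ (a + 2)
  mul' : ∀ σ a, X σ (a + 1) * X σ a = -(Complex.I • X σ (a + 2))
  square : ∀ σ a, X σ a * X σ a = X σ 0 * X σ 0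
  /-- different colours commute -/
  comm : ∀ σ τ, σ ≠ τ → ∀ a b, X σ a * X τ b = X τ b * X σ a
  /-- every colour acts nontrivially -/
  nonzero : ∀ σ, X σ 0 ≠ 0
  /-- two different colours act on the same constituent, or there are two constituents which differ
  only by these two colours -/
  separated : ∀ σ τ, σ ≠ τ → (∃ S, σ ∈ S ∧ τ ∈ S ∧ HasBlock X S) ∨
    ∃ S, σ ∉ S ∧ τ ∉ S ∧ HasBlock X (insert σ S) ∧ HasBlock X (insert τ S)
  /-- `Q` is a projection to the summand -/
  proj : Q * P = 1
  /-- the image of `P * Q` and its complement are stable under `𝔤` -/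
  stable : ∀ Z, InLie A Z → P * Q * toC A Z = toC A Z * (P * Q)
  /-- `𝔤` acts through the sum of the Lie algebras `sl(2)` and the scalars -/
  acts : ∀ Z, InLie A Z → ∃ t : ℂ, Q * toC A Z * P + t • (1 : Matrix (Fin d) (Fin d) ℂ) ∈
    Submodule.span ℂ {Y | ∃ σ a, Y = X σ a}
  /-- the associative algebra generated by `𝔤 ⊗ ℂ` -/
  generates : ∀ σ a, ∃ Y ∈ Algebra.adjoin ℂ (lieC A : Set (EndC A)), X σ a = Q * Y * P

/-! ### Motives -/

variable {s n : ℕ} (r : Fin s → ℕ) (w : Fin s → ℤ)

/-- The Betti realization of the sum of the motives `h^1(A) ^ {⊗ r i} (w i)`: families of multilinear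
forms in `r i` variables in the rational homology. -/
abbrev Tensors : Type := ∀ i : Fin s, MultilinearMap ℚ (fun _ : Fin (r i) => A.H1) ℚ

variable {A r}

/-- `M` is the matrix of the action of the endomorphism `X` of the rational homology of `A` (as a
derivation) on the space of tensors with the basis `B`. -/
def IsLieMatrix (B : Fin n → Tensors A r) (X : Module.End ℚ A.H1)
    (M : Matrix (Fin n) (Fin n) ℚ) : Prop :=
  ∀ a i v, ∑ k, B a i (Function.update v k (X (v k))) = ∑ b, M b a * B b i v

/-- The subspace with the basis `B` is the Betti realization of a direct factor `M` of the sum of the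
motives `h^1(A) ^ {⊗ r i} (w i)`, and `P` is the matrix of the periods of `M` for the basis `B` and for
some basis of the de Rham realization of `M` over `ℚ̄`. -/
structure IsMotive (B : Fin n → Tensors A r) (P : Matrix (Fin n) (Fin n) ℂ) : Prop where
  /-- `B` is a basis of a subspace -/
  basis : LinearIndependent ℚ B
  /-- the subspace is stable under `𝔤` -/
  lie : ∀ X, InLie A X → ∃ M : Matrix (Fin n) (Fin n) ℚ, IsLieMatrix B X M
  /-- the subspace is stable under the weights -/
  weight : ∃ M : Matrix (Fin n) (Fin n) ℚ, ∀ a i v,
    ((r i : ℚ) - 2 * w i) * B a i v = ∑ b, M b a * B b i v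
  /-- the de Rham realization has a basis of elements with algebraic coefficients in terms of the
  tensor products of the elements of the basis of `H^1_dR(A / ℚ̄)` -/
  deRham : ∃ c : Fin n → ∀ i : Fin s, (Fin (r i) → Fin g ⊕ Fin g) → ℂ,
    (∀ a i J, IsAlgebraic ℚ (c a i J)) ∧ ∀ a i (v : Fin (r i) → A.H1),
      ∑ J, c a i J * ∏ k, A.dR (J k) (v k) =
        (2 * Real.pi * Complex.I) ^ (w i) * ∑ b, P b a * (B b i v : ℂ)
  /-- the matrix of the periods is invertible -/
  det : P.det ≠ 0

/-! ### The Mumford-Tate domain -/

/-- `N` is the matrix of the action on `M` of the multiplication with `i` on `H_1(A, ℝ) = ℂ ^ g` (as a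
derivation): the generator of the Lie algebra of the circle in the Hodge structure of `M`. -/
def IsComplexStructure (B : Fin n → Tensors A r) (N : Matrix (Fin n) (Fin n) ℝ) : Prop :=
  ∀ a i (j : Fin (r i) → Fin (2 * g)),
    ∑ k, ∑ l : Fin (2 * g), A.lam.repr (Complex.I • A.lam (j k)) l *
        (B a i (Function.update (fun p => Pi.single (j p) 1) k (Pi.single l 1)) : ℝ) =
      ∑ b, N b a * (B b i (fun p => Pi.single (j p) 1) : ℝ)

variable (A) in
/-- The derived algebra `[𝔤, 𝔤]`. -/
def derivedLie : Submodule ℚ (Module.End ℚ A.H1) :=
  Submodule.span ℚ {Z | ∃ X, InLie A X ∧ ∃ Y, InLie A Y ∧ Z = X * Y - Y * X}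

/-- The motive `M` is attached to the image of the projector `E`: an element of `[𝔤, 𝔤] ⊗ ℂ`, which
acts on `H_1(A, ℂ)` by `p.1` and on `M` by `p.2`, acts trivially on `M` if it acts trivially on the
image of `E`. -/
def AttachedTo (E : EndC A) (B : Fin n → Tensors A r) : Prop :=
  ∀ p ∈ Submodule.span ℂ {p : EndC A × Matrix (Fin n) (Fin n) ℂ | ∃ X ∈ derivedLie A,
      ∃ M : Matrix (Fin n) (Fin n) ℚ, IsLieMatrix B X M ∧
        p = (toC A X, M.map fun q => (q : ℂ))},
    E * p.1 = 0 → p.2 = 0

/-- The Lie algebra of the Hodge group of `M`: the smallest rational Lie algebra whose real span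
contains the complex structure `N`. -/
def hodgeLie (N : Matrix (Fin n) (Fin n) ℝ) : Submodule ℚ (Matrix (Fin n) (Fin n) ℚ) :=
  sInf {L | (∀ x ∈ L, ∀ y ∈ L, x * y - y * x ∈ L) ∧
    N ∈ Submodule.span ℝ {M | ∃ x ∈ L, M = x.map fun q => (q : ℝ)}}

/-- The derived algebra. -/
def derived (L : Submodule ℚ (Matrix (Fin n) (Fin n) ℚ)) :
    Submodule ℚ (Matrix (Fin n) (Fin n) ℚ) :=
  Submodule.span ℚ {z | ∃ x ∈ L, ∃ y ∈ L, z = x * y - y * x}

/-- The centre of the Lie algebra acts trivially: an element of `𝔤` which acts on `M` like a central
element acts trivially. -/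
def CentreActsTrivially (B : Fin n → Tensors A r) : Prop :=
  ∀ X, InLie A X → (∀ Y, InLie A Y → IsLieMatrix B (X * Y - Y * X) 0) → IsLieMatrix B X 0

/-! ### Algebraic groups, torsors and the Mumford-Tate group -/

/-- A subgroup of `GL_R(ℂ)` defined by polynomials with rational coefficients. -/
def IsAlgebraicSubgroup {R : Type} [Fintype R] [DecidableEq R] (G : Subgroup (GL R ℂ)) : Prop :=
  ∃ I : Set (MvPolynomial (R × R) ℚ), ∀ x : GL R ℂ, x ∈ G ↔
    ∀ p ∈ I, MvPolynomial.aeval (fun b : R × R => (x : Matrix R R ℂ) b.1 b.2) p = 0

/-- A subgroup of `GL_R(ℂ)` defined by polynomials whose coefficients are algebraic numbers. -/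
def IsAlgebraicSubgroupQbar {R : Type} [Fintype R] [DecidableEq R] (G : Subgroup (GL R ℂ)) :
    Prop :=
  ∃ I : Set (MvPolynomial (R × R) ℂ), (∀ p ∈ I, ∀ m, IsAlgebraic ℚ (p.coeff m)) ∧
    ∀ x : GL R ℂ, x ∈ G ↔
      ∀ p ∈ I, MvPolynomial.eval (fun b : R × R => (x : Matrix R R ℂ) b.1 b.2) p = 0

/-- The torsor `G · T⁻¹` of `G`: the matrices `F` such that `F T` is an element of `G`. It is
defined over `ℚ̄` if `T` is a matrix with algebraic entries. -/
def torsor (G : Subgroup (GL (Fin n) ℂ)) (T : Matrix (Fin n) (Fin n) ℂ) :
    Set (Matrix (Fin n) (Fin n) ℂ) :=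
  {F | ∃ x ∈ G, (x : Matrix (Fin n) (Fin n) ℂ) = F * T}

variable (A) in
/-- The Hodge structure of `H^1(A)`: the complex number `z` acts on `H_1(A, ℝ) = ℂ ^ g` by
multiplication, and on `H^1(A, ℝ)` by the transposed map, here in the basis of `H^1(A, ℚ)` which is
dual to the basis of the lattice. -/
def hodge (z : ℂ) : Matrix (Fin (2 * g)) (Fin (2 * g)) ℂ :=
  Matrix.of fun i j => ((A.lam.repr (z • A.lam i) j : ℝ) : ℂ)

/-- `R` is the matrix of the action of the complex number `z` on `M`, in the Hodge structure given by
those of `H^1(A)` and of the Tate motives (`z` acts on `ℚ(1)` by `(z z̄)⁻¹`). -/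
def IsHodgeMatrix (B : Fin n → Tensors A r) (z : ℂ) (R : Matrix (Fin n) (Fin n) ℂ) : Prop :=
  ∀ a i (j : Fin (r i) → Fin (2 * g)),
    ∑ j' : Fin (r i) → Fin (2 * g), (∏ k, hodge A z (j k) (j' k)) *
        (B a i (fun k => Pi.single (j' k) 1) : ℂ) =
      (z * (starRingEnd ℂ) z) ^ (w i) * ∑ b, R b a * (B b i (fun k => Pi.single (j k) 1) : ℂ)

/-- The Mumford-Tate group of `M`: the smallest algebraic group over `ℚ` which contains the image of
the Deligne torus. -/
def mumfordTate (B : Fin n → Tensors A r) : Subgroup (GL (Fin n) ℂ) :=
  sInf {G | IsAlgebraicSubgroup G ∧ ∀ z : ℂ, z ≠ 0 → ∃ x ∈ G,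
    IsHodgeMatrix w B z (x : Matrix (Fin n) (Fin n) ℂ)}

variable (A) in
/-- There is no factor of type IV: the Rosati involution is trivial on the centre of the algebra of
the endomorphisms, that is, the centre contains no nonzero element which is skew-symmetric for the
polarization `A.om`. (The endomorphisms of the de Rham-Betti object `H_1(A)` are the endomorphisms of
`A` by the theorem of Bost, which is proved in `Pool.Agent.Y102.AbVar.hodge_end`.) -/
def NoFactorOfTypeIV : Prop :=
  ∀ P : Module.End ℚ A.H1, IsDeRhamBettiEnd QBar A.dR P →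
    (∀ Q : Module.End ℚ A.H1, IsDeRhamBettiEnd QBar A.dR Q → P * Q = Q * P) →
    (∀ u v, A.om (P u) v + A.om u (P v) = 0) → P = 0

/-- **Theorem.** Let `X`, `PW`, `QW` be a Pauli part `W` of `H_1(A, ℂ)`. Let `M` be a motive in the
tensor category generated by `h^1(A)` and the Tate motives, with the matrix `P` of periods and the
complex structure `N`, such that the elements of `[𝔤, 𝔤] ⊗ ℂ` which act trivially on `W` act trivially
on `M`. Let `G` be an algebraic group over `ℚ̄` with a torsor over `ℚ̄` which contains `P`.

1. For all elements `Z` of the derived algebra of the Lie algebra of the Hodge group of `M` and all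
   complex numbers `t` the matrix `exp (t Z)` is in `G`.
2. If `A` has no factor of type IV, or if the centre acts trivially on `M`, then the Mumford-Tate group
   of `M` is contained in `G`. -/
theorem result {g s n k d : ℕ} (A : AbVar g) (X : Fin k → Fin 3 → Matrix (Fin d) (Fin d) ℂ)
    (PW : Matrix (Fin (2 * g)) (Fin d) ℂ) (QW : Matrix (Fin d) (Fin (2 * g)) ℂ)
    (hA : PauliPart A X PW QW) (r : Fin s → ℕ) (w : Fin s → ℤ)
    (B : Fin n → Tensors A r) (P : Matrix (Fin n) (Fin n) ℂ) (hM : IsMotive w B P)
    (N : Matrix (Fin n) (Fin n) ℝ) (hN : IsComplexStructure B N) (hD : AttachedTo (PW * QW) B)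
    (G : Subgroup (GL (Fin n) ℂ)) (hG : IsAlgebraicSubgroupQbar G) (T : Matrix (Fin n) (Fin n) ℂ)
    (hT : ∀ i j, IsAlgebraic ℚ (T i j)) (hP : P ∈ torsor G T) :
    (∀ Z ∈ derived (hodgeLie N), ∀ t : ℂ, ∃ x ∈ G,
      (x : Matrix (Fin n) (Fin n) ℂ) = NormedSpace.exp (t • Z.map fun q => (q : ℂ))) ∧
    (NoFactorOfTypeIV A ∨ CentreActsTrivially B → mumfordTate w B ≤ G) := by
  have hrig := K9h14.PA.rigPart_pau (A := A) hA.mul hA.mul' hA.square hA.comm hA.nonzero
    hA.separated hA.proj hA.stable hA.acts hA.generates
  obtain ⟨hM', Wt, hW⟩ : N208.AM.Mot w B P ∧ ∃ Wt, N208.AM.WRel w B Wt := by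
    have hwt : ∃ M, N208.AM.WRel w B M := by
      obtain ⟨M, h⟩ := hM.weight
      refine ⟨M, fun a i => MultilinearMap.ext fun v => ?_⟩
      rw [_root_.smul_apply, _root_.sum_apply, smul_eq_mul, h a i v]
      rfl
    refine ⟨⟨hM.basis, fun X hX => ?_, hwt, hM.det, hM.deRham⟩, hwt⟩
    obtain ⟨M, h⟩ := hM.lie X hX
    refine ⟨M, fun a i => MultilinearMap.ext fun v => ?_⟩
    rw [N208.AM.dact_apply, _root_.sum_apply, h a i v]
    rfl
  have hrelL : ∀ X M, N208.AM.Rel B X M ↔ IsLieMatrix B X M := by
    intro X M
    constructor
    · intro h a i v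
      have h1 := congrArg (fun φ : MultilinearMap ℚ (fun _ : Fin (r i) => A.H1) ℚ => φ v) (h a i)
      simp only [N208.AM.dact_apply, _root_.sum_apply, _root_.smul_apply, smul_eq_mul] at h1
      exact h1
    · intro h a i
      refine MultilinearMap.ext fun v => ?_
      rw [N208.AM.dact_apply, _root_.sum_apply, h a i v]
      rfl
  have hb : ∀ j : Fin (2 * g), A.bas j = Pi.single j 1 := fun j => by
    unfold AbVar.bas
    rw [Pi.basisFun_apply]
  have hrel : ∀ z R, N208.AM.HRel w B z R → IsHodgeMatrix w B z R := by
    intro z R h a i j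
    have h1 := h a i j
    simp only [hb] at h1
    exact h1
  have hA' : NoFactorOfTypeIV A → N208.AM.NT4 A := fun hA P hP hc hs =>
    hA P (A.mem_EA.1 hP) (fun Q hQ => hc Q (A.mem_EA.2 hQ)) hs
  have hNC : CentreActsTrivially B → N208.AM.NoCentre B := fun hc X hX h =>
    (hrelL X 0).2 (hc X hX fun Y hY => (hrelL _ 0).1 (h Y hY))
  -- the complex structure
  have hNR : N208.AM.RelR B AbVar.JJ N := by
    intro a i
    refine Basis.ext_multilinear (fun _ => A.lam) fun j => ?_
    have h1 := hN a i j
    rw [N208.AM.dact_apply, _root_.sum_apply]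
    have h2 : (fun p => A.lam (j p)) = fun p => A.per (Pi.single (j p) 1) := by
      funext p
      rw [← hb, A.per_bas]
    have h3 : ∀ b, (N b a • A.Phi (B b i)) (fun p => A.lam (j p)) =
        N b a * (B b i (fun p => Pi.single (j p) 1) : ℝ) := fun b => by
      rw [_root_.smul_apply, smul_eq_mul, h2, A.Phi_per]
    rw [Finset.sum_congr rfl fun b _ => h3 b, ← h1]
    refine Finset.sum_congr rfl fun k _ => ?_
    rw [AbVar.JJ_apply, ← A.lam.sum_repr (Complex.I • A.lam (j k)), MultilinearMap.map_update_sum]
    simp only [A.lam.sum_repr]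
    refine Finset.sum_congr rfl fun l _ => ?_
    rw [MultilinearMap.map_update_smul, smul_eq_mul]
    congr 1
    have h4 : A.lam l = A.per (Pi.single l 1) := by rw [← hb, A.per_bas]
    rw [h2, h4, N208.AM.update_per, A.Phi_per]
  -- the kernel condition
  have hα := K9h14.alpha_of' (B := B) (E := PW * QW) (T := Pool.Agent.Y102.der A.NA)
    fun p hp h0 => by
      refine hD p ?_ h0
      refine (Submodule.span_mono ?_) hp
      rintro _ ⟨X, hX, M, hM, rfl⟩
      refine ⟨X, ?_, M, (hrelL _ _).1 hM, rfl⟩
      refine (Submodule.span_mono ?_) hX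
      rintro _ ⟨X, hX, Y, hY, rfl⟩
      exact ⟨X, hX, Y, hY, rfl⟩
  -- the group
  obtain ⟨hG1, hG2⟩ := K9h14.of_eqs hG
  have hdet : T.det ≠ 0 := by
    obtain ⟨x, -, hxT⟩ := hP
    intro h0
    have h1 : (x : Matrix (Fin n) (Fin n) ℂ).det = 0 := by
      rw [hxT, Matrix.det_mul, h0, mul_zero]
    exact (Matrix.GeneralLinearGroup.det x).ne_zero h1
  obtain ⟨T', h1, h2⟩ := Pool.Agent.R917.alg_inv hT hdet
  obtain ⟨x, hx, hxT⟩ := hP
  have hH : K9h14.PtQ P (K9h14.mats G) := ⟨hG1, T, T', h1, h2, x, hx, hxT⟩
  have hd : K9h14.DerIn B (K9h14.mats G) := fun X hX M hM =>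
    K9h14.main_dC hM' hW hH hrig hα hX hM
  refine ⟨fun Z hZ t => ?_, fun hA => ?_⟩
  · obtain ⟨L, hL1, hL2, hL3⟩ := hd.lie hM' hNR
    have h3 : hodgeLie N ≤ L := sInf_le ⟨hL1, hL2⟩
    have h4 : derived (hodgeLie N) ≤ N208.AM.LQ (K9h14.mats G) := by
      unfold derived
      rw [Submodule.span_le]
      rintro _ ⟨x, hx, y, hy, rfl⟩
      exact hL3 x (h3 hx) y (h3 hy)
    exact Pool.Agent.R917.exp_mem hH.grp fun d => (h4 hZ d).smul t
  · have hc : N208.AM.NoCentre B := hA.elim
      (fun h => N208.AM.noCentre_of_NT4 hM' (hA' h)) hNC
    refine le_trans (sInf_le ⟨K9h14.hull_alg hG2, fun z hz => ?_⟩) (K9h14.hull_le G)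
    obtain ⟨x, hx, h4⟩ := hd.torus hG2 hM' hW hH hc hNR hz
    exact ⟨x, hx, hrel _ _ h4⟩

end Pool.Agent.Results.MP_77d3f5_ag.QbarHilbert
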